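import Mathlib
import Pool.Agent.Helper95.SF.Reduce

/-!
# Maximum `[0,s]`-sum-free sets in finite abelian `p`-groups (MP_cb0067_co)

`G` is any finite abelian `p`-group (of any rank) of order `n` and exponent `κ > s ≥ 2`, `m` is
the least divisor of `κ` exceeding `s` (that is, the least power of `p` exceeding `s`), and
`E = ⌈3 (s+1)² / 4⌉ - s - 1`.
If `m ≤ E · μ(ℤ_m,[0,s])` then `μ(G,[0,s]) = (n / m) · μ(ℤ_m,[0,s])`; and if `m ≤ E` then
`μ(G,[0,s]) = n / m`.

Definitions used (`Pool/Agent/Helper95/SF/Core.lean`, `Lower.lean`):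
* `nsum A h` is the `h`-fold sumset `hA` (`nsum A 0 = {0}`, `nsum A (h+1) = nsum A h + A`);
* `IsSumFree s A` : `0A, 1A, …, sA` are pairwise disjoint;
* `mu G s = μ(G,[0,s])`, the largest size of such an `A ⊆ G`;
* `D s = (3 (s+1)² + 3) / 4 = ⌈3 (s+1)² / 4⌉`.
-/

open Finset
open scoped Pointwise

namespace Pool.Agent.Results.MP_cb0067_co.PGroups

open Pool.Agent.Helper95.SF

theorem result {G : Type*} [AddCommGroup G] [DecidableEq G] [Fintype G] (s m p k : ℕ)
    (hs : 2 ≤ s) (hp : p.Prime) (hcard : Fintype.card G = p ^ k)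
    (hm : IsLeast {d : ℕ | d ∣ AddMonoid.exponent G ∧ s < d} m) :
    -- `mu` is the maximum `μ(·,[0,s])` for `G` and for `ℤ_m`
    IsGreatest {c : ℕ | ∃ A : Finset G, IsSumFree s A ∧ A.card = c} (mu G s) ∧
    IsGreatest {c : ℕ | ∃ A : Finset (ZMod m), IsSumFree s A ∧ A.card = c} (mu (ZMod m) s) ∧
    -- reduction to the cyclic group `ℤ_m`
    (m ≤ mu (ZMod m) s * (D s - (s + 1)) → mu G s = Fintype.card G / m * mu (ZMod m) s) ∧
    -- the explicit value when `m ≤ E`
    (m ≤ D s - (s + 1) → mu G s = Fintype.card G / m) := by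
  have hsm : s < m := hm.1.2
  have hb : 1 ≤ mu (ZMod m) s :=
    (one_le_mu_zmod s m (by omega) hsm).trans' (Nat.le_add_left 1 _)
  have : NeZero m := ⟨by omega⟩
  refine ⟨mu_isGreatest s, mu_isGreatest s, ?_, ?_⟩
  · intro hE
    exact pgroup s m _ p k hs hp hcard hm le_rfl hb hE
  · intro hE
    have h := pgroup s m 1 p k hs hp hcard hm hb le_rfl (by omega)
    rwa [Nat.mul_one] at h

end Pool.Agent.Results.MP_cb0067_co.PGroups
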