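import Mathlib
import Pool.Agent.Helper18.SV.All
import Pool.Agent.Helper18.SV.Old

/-!
# Maximum `[0,s]`-sum-free sets in finite abelian groups (MP_cb0067_co)

`G` is any finite abelian group (any rank), `n = |G|`, `κ` its exponent, `s ≥ 2`,
`T = ⌈3 (s+1)² / 4⌉ - (s+1)`, and `w` is the maximum of `c / d` over all divisors `d` of `κ` and
all lengths `c` of `[0,s]`-sum-free arithmetic progressions in `ℤ_d`.  Then
`n w ≤ μ(G,[0,s]) ≤ max (n w, n / T)`; so `μ(G,[0,s]) = n w` as soon as `w ≥ 1 / T`.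

Definitions used:
* `nsum A h` is the `h`-fold sumset `hA` (`nsum A 0 = {0}`, `nsum A (h+1) = nsum A h + A`);
* `IsSumFree s A` : `0A, 1A, …, sA` are pairwise disjoint;
* `mu G s = μ(G,[0,s])`, the largest size of such an `A ⊆ G`;
* `D s = (3 (s+1)² + 3) / 4 = ⌈3 (s+1)² / 4⌉`, `T s = D s - (s + 1)`;
* `prog x y c = {x + i y : 0 ≤ i < c}`;
* `Adm s d c` : for some `x, y ∈ ℤ_d` the progression `prog x y c` has `c` distinct elements and is
  `[0,s]`-sum-free; `Adm1 s d c` : the same with `x = 1`.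
-/

open Finset
open scoped Pointwise

namespace Pool.Agent.Results.MP_cb0067_co.ProgressionFormula

open Pool.Agent.Helper95.SF Pool.Agent.Helper18.SV

universe u

theorem result {G : Type u} [AddCommGroup G] [DecidableEq G] [Fintype G] (s : ℕ) (hs : 2 ≤ s) :
    -- `mu G s` is the maximum `μ(G,[0,s])`
    IsGreatest {c : ℕ | ∃ A : Finset G, IsSumFree s A ∧ A.card = c} (mu G s) ∧
    -- lower bound: progressions in cyclic quotients
    (∀ d c : ℕ, d ∣ AddMonoid.exponent G → Adm s d c → Fintype.card G / d * c ≤ mu G s) ∧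
    -- upper bound: `μ(G,[0,s]) ≤ n / T`, or `μ(G,[0,s])` is the value of a progression
    (T s * mu G s ≤ Fintype.card G ∨
      ∃ d c : ℕ, d ∣ AddMonoid.exponent G ∧ Adm1 s d c ∧ mu G s = Fintype.card G / d * c) ∧
    -- the exact value, when some progression has density `c / d ≥ 1 / T`
    ((∃ d c : ℕ, d ∣ AddMonoid.exponent G ∧ Adm s d c ∧ d ≤ T s * c) →
      IsGreatest {v : ℕ | ∃ d c : ℕ, d ∣ AddMonoid.exponent G ∧ Adm1 s d c ∧
        v = Fintype.card G / d * c} (mu G s)) ∧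
    -- reduction to the cyclic group `ℤ_κ`
    (AddMonoid.exponent G ≤ T s * mu (ZMod (AddMonoid.exponent G)) s →
      mu G s = Fintype.card G / AddMonoid.exponent G * mu (ZMod (AddMonoid.exponent G)) s) ∧
    -- when is a progression `[0,s]`-sum-free
    (∀ (d c : ℕ) (x y : ZMod d), 1 ≤ c → (IsSumFree s (prog x y c) ↔
      ∀ e : ℕ, 1 ≤ e → e ≤ s → ∀ i : ℤ, -((s : ℤ) * (c - 1)) ≤ i →
        i ≤ ((s : ℤ) - e) * (c - 1) → e • x ≠ i • y)) ∧
    -- the lengths of sum-free progressions in `ℤ_d`: upper bound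
    (∀ d c : ℕ, 1 ≤ d → 1 ≤ c → Adm s d c →
      (∃ m : ℕ, m ∣ d ∧ s < m ∧ c * m ≤ d) ∨ T s * (c - 1) + (s + 1) ≤ d) ∧
    -- existence: one term; `s = 2t`; `s = 2t + 1`
    (∀ d : ℕ, s < d → Adm s d 1) ∧
    (∀ t c k r : ℕ, s = 2 * t → 1 ≤ c → t * k ≤ r → r ≤ (t + 1) * k →
      Adm s (T s * (c - 1) + (s + 1) + r) c) ∧
    (∀ t c N : ℕ, s = 2 * t + 1 → 1 ≤ c → Nat.Coprime (t + 1) N →
      (3 * t + 1) * (c - 1) + 2 ≤ N → Adm s ((t + 1) * N) c) ∧
    -- so for even `s` the exact value above holds when `κ` has a divisor `d > s`,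
    -- `d ≡ s + 1` mod `T`
    (Even s → (∃ d : ℕ, d ∣ AddMonoid.exponent G ∧ s < d ∧ d ≡ s + 1 [MOD T s]) →
      IsGreatest {v : ℕ | ∃ d c : ℕ, d ∣ AddMonoid.exponent G ∧ Adm1 s d c ∧
        v = Fintype.card G / d * c} (mu G s)) ∧
    -- closed form: if the maximum of `(⌊(d-s-1)/T⌋ + 1) / d` over the divisors `d > s` of `κ` is
    -- attained at a `d₀` where it is `≥ 1 / T` and is the density of a progression
    (∀ d₀ : ℕ, d₀ ∣ AddMonoid.exponent G → Adm s d₀ ((d₀ - (s + 1)) / T s + 1) →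
      d₀ ≤ T s * ((d₀ - (s + 1)) / T s + 1) →
      (∀ d, d ∣ AddMonoid.exponent G → s < d →
        ((d - (s + 1)) / T s + 1) * d₀ ≤ ((d₀ - (s + 1)) / T s + 1) * d) →
      mu G s = Fintype.card G / d₀ * ((d₀ - (s + 1)) / T s + 1)) ∧
    -- in particular, with `m` the least divisor of `κ` exceeding `s`
    (∀ m : ℕ, IsLeast {d : ℕ | d ∣ AddMonoid.exponent G ∧ s < d} m →
      Fintype.card G / m ≤ mu G s ∧
      (mu G s ≤ Fintype.card G / m ∨ D s * mu G s ≤ 2 * Fintype.card G) ∧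
      (2 * m ≤ D s → mu G s = Fintype.card G / m) ∧
      (Even s → D s ∣ AddMonoid.exponent G → D s ≤ 2 * m →
        mu G s = 2 * (Fintype.card G / D s))) := by
  classical
  have hT4 := four_le_T s hs
  have hev : ∀ t c k r : ℕ, s = 2 * t → 1 ≤ c → t * k ≤ r → r ≤ (t + 1) * k →
      Adm s (T s * (c - 1) + (s + 1) + r) c := by
    intro t c k r hst hc hr1 hr2
    subst hst
    exact g_EVN t c k r (by omega) hc hr1 hr2
  refine ⟨mu_isGreatest s, fun d c hd h => lower s d c hd h, dicho all G s hs,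
    fun h => formula all all.red G s hs h, fun h => cyclic_red all G s hs h,
    fun d c x y hc => t_CRIT (ZMod d) s c x y hc, fun d c hd hc h => g_BND s d c hs hd hc h,
    fun d hd => adm_of_adm1 (adm1_one s d hd), hev, ?_, ?_,
    fun d₀ hd hadm hT hmax => explicit all all.red g_BND G s hs d₀ hd hadm hT hmax,
    fun m hm => exactValues s m hs hm⟩
  · intro t c N hst hc hcop hN
    rw [hst]
    exact g_ODD t c N (by omega) hc hcop hN
  · rintro ⟨t, ht⟩ ⟨d, hd, hsd, hmod⟩
    obtain ⟨b, hb⟩ : ∃ b, d = T s * b + (s + 1) := by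
      obtain ⟨b, hb⟩ := (Nat.modEq_iff_dvd' (by omega)).1 hmod.symm
      exact ⟨b, by omega⟩
    refine formula all all.red G s hs ⟨d, b + 1, hd, ?_, ?_⟩
    · have h := hev t (b + 1) 0 0 (by omega) (by omega) (by omega) (by omega)
      rw [Nat.add_sub_cancel, Nat.add_zero] at h
      rw [hb]
      exact h
    · have h3 : s + 1 ≤ T s := by
        have h5 : T s = t * (3 * t + 1) := by
          rw [show s = 2 * t by omega, T_even]
        have h6 : 1 ≤ t := by omega
        rw [h5, show s = 2 * t by omega]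
        nlinarith
      rw [hb, Nat.mul_add, Nat.mul_one]
      omega

end Pool.Agent.Results.MP_cb0067_co.ProgressionFormula
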